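import Pool.Agent.Work.MP_b29d7f_ns.Interface3

/-! Block CONC: concentration. -/

set_option autoImplicit false

open Finset Filter Topology

namespace Pool.NS

namespace CONC_

open Data

variable {R : Type} [CommRing R] {P : Data R} {C₁ : ℝ}

lemma DV_eq (ρ : P.Ω → ℝ) (A B : Finset R) (v : P.Ω) :
    P.DV ρ A B v = ((P.e v : ℝ) / 2) * (-∑ i ∈ A, ∑ j ∈ A, fB A B i * fB A B j *
      Real.log (‖P.em i v - P.em j v‖ ^ 2 + ρ v ^ 2)) := by
  unfold DV
  simp only [em_sub]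
  ring

lemma DV_nonneg (hG : Stmt_PDG) (h : P.Geo C₁) {ρ : P.Ω → ℝ} (hρ : ∀ v, 0 < ρ v)
    {A B : Finset R} (hB : B ⊆ A) (hA : A.Nonempty) (v : P.Ω) : 0 ≤ P.DV ρ A B v := by
  rw [DV_eq]
  have h1 := hG (P.e v) (h.e_eq v) R A (fun x => P.em x v) (fB A B) (ρ v) (hρ v) (fB_sum hB hA)
  exact mul_nonneg (by positivity) (by linarith)

lemma DT_nonneg (hT : Stmt_PDT) (h : P.Good C₁) (m : P.T → ℤ)
    {A B : Finset R} (hB : B ⊆ A) (hBn : B.Nonempty) (t : P.T) : 0 ≤ P.DT m A B t :=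
  (hT R P C₁ h A B m t hB hBn).1

lemma DV_le_sum (hG : Stmt_PDG) (hT : Stmt_PDT) (h : P.Good C₁) {ρ : P.Ω → ℝ} (hρ : ∀ v, 0 < ρ v)
    (m : P.T → ℤ) {A B : Finset R} (hB : B ⊆ A) (hBn : B.Nonempty) (v : P.Ω) :
    P.DV ρ A B v ≤ ∑ v, P.DV ρ A B v + ∑ t, P.DT m A B t := by
  have hA : A.Nonempty := hBn.mono hB
  have h1 := Finset.single_le_sum (f := fun v => P.DV ρ A B v)
    (fun v _ => DV_nonneg hG h.toGeo hρ hB hA v) (Finset.mem_univ v)
  have h2 : 0 ≤ ∑ t, P.DT m A B t := Finset.sum_nonneg fun t _ => DT_nonneg hT h m hB hBn t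
  linarith

lemma DT_le_sum (hG : Stmt_PDG) (hT : Stmt_PDT) (h : P.Good C₁) {ρ : P.Ω → ℝ} (hρ : ∀ v, 0 < ρ v)
    (m : P.T → ℤ) {A B : Finset R} (hB : B ⊆ A) (hBn : B.Nonempty) (t : P.T) :
    P.DT m A B t ≤ ∑ v, P.DV ρ A B v + ∑ t, P.DT m A B t := by
  have hA : A.Nonempty := hBn.mono hB
  have h1 := Finset.single_le_sum (f := fun t => P.DT m A B t)
    (fun t _ => DT_nonneg hT h m hB hBn t) (Finset.mem_univ t)
  have h2 : 0 ≤ ∑ v, P.DV ρ A B v :=
    Finset.sum_nonneg fun v _ => DV_nonneg hG h.toGeo hρ hB hA v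
  linarith

lemma gap_sum_le (h : P.Geo C₁) (ρ : P.Ω → ℝ) (m : P.T → ℤ) {A B : Finset R} (hB : B ⊆ A) :
    ∑ x ∈ B, ∑ b ∈ A, P.gap ρ m (x - b) ≤ P.Gp ρ m A := by
  unfold Gp
  exact Finset.sum_le_sum_of_subset_of_nonneg hB fun x _ _ =>
    Finset.sum_nonneg fun b _ => h.gap_nonneg ρ m _

end CONC_

open Data CONC_ in
theorem stmt_CONC (h0 : Stmt_T0) (h1 : Stmt_T1) (hG : Stmt_PDG) (hL : Stmt_PDL) (hT : Stmt_PDT) :
    Stmt_CONC := by
  classical
  intro R _ P C₁ hgood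
  have hg := hgood.toGeo
  obtain ⟨C0, hC0, H0⟩ := h0 R P C₁ hgood
  obtain ⟨θ₀, CT, hθ₀, hθ₀', hCT, H1⟩ := h1 R P C₁ hgood
  refine ⟨θ₀, hθ₀, hθ₀', ?_⟩
  intro θ hθ hθle η hη hη'
  obtain ⟨cL, CL, hcL, hCL, HL⟩ := hL η hη hη'
  have hθ1 : θ ≤ 1 := by linarith
  have hlogθ : 0 ≤ Real.log (1 / θ) := Real.log_nonneg (by rw [le_div_iff₀ hθ]; linarith)
  -- constants
  set a : ℝ := θ * (Real.log (1 / θ) + 1) with ha
  have ha0 : 0 ≤ a := by positivity
  set K : ℝ := Real.log (1 / θ) + C0 + 1 + 2 * CT * (a + 1) with hK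
  have hK0 : 0 < K := by positivity
  set CV : ℝ := Real.log 2 + CL + 2 * K / (cL * θ ^ 2) with hCV
  set CTt : ℝ := ∑ t : P.T, K / (P.lq t * (η ^ 2 * θ ^ 2)) with hCTt
  have hCTt0 : 0 ≤ CTt := Finset.sum_nonneg fun t _ => by
    have := hg.lq_pos t
    positivity
  have hCV0 : 0 ≤ CV := by
    have : 0 ≤ Real.log 2 := Real.log_nonneg (by norm_num)
    positivity
  refine ⟨⌈CV + CTt + 2⌉₊, ?_⟩
  intro A L hopt ρ m hρ hVs hTs hVl hTl N hN
  set n : ℝ := (A.card : ℝ) with hn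
  have hn0 : 0 < n := by rw [hn]; exact_mod_cast Finset.card_pos.2 hopt.ne
  set t0 : ℝ := max 0 (-(P.deg ρ m)) with ht0
  have ht00 : 0 ≤ t0 := le_max_left _ _
  set q : ℝ := 1 + t0 / n with hq
  have hq1 : 1 ≤ q := by rw [hq]; have : 0 ≤ t0 / n := by positivity
                         linarith
  have hqn : q * n ^ 2 = n ^ 2 + t0 * n := by rw [hq]; field_simp
  have hNq : (CV + CTt + 2) * q ≤ N := by
    refine le_trans ?_ hN
    exact mul_le_mul_of_nonneg_right (Nat.le_ceil _) (by linarith)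
  -- bound for the sum of the gaps
  have hGp : P.Gp ρ m A ≤ CT * (n ^ 2 * a + t0 * n) := H1 A L hopt ρ m θ hρ hθ hθle hVs hTs
  have hGp0 : 0 ≤ P.Gp ρ m A := hg.Gp_nonneg ρ m A
  -- the main bound
  have main : ∀ B ⊆ A, θ * n < B.card →
      ∑ v, P.DV ρ A B v + ∑ t, P.DT m A B t ≤ K * (q * n ^ 2) := by
    intro B hB hBc
    have hBpos : (0 : ℝ) < B.card := lt_trans (by positivity) hBc
    have hBn : B.Nonempty := Finset.card_pos.1 (by exact_mod_cast hBpos)
    have hBle : (B.card : ℝ) ≤ n := by rw [hn]; exact_mod_cast Finset.card_le_card hB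
    have e1 := H0 A L hopt ρ m hρ B hB hBn
    have e2 : 0 ≤ P.Gp ρ m B := hg.Gp_nonneg ρ m B
    have e3 : Real.log (n / B.card) ≤ Real.log (1 / θ) := by
      apply Real.log_le_log (by positivity)
      rw [div_le_div_iff₀ hBpos hθ]
      linarith
    have e4 : (B.card : ℝ) / n ≤ 1 := by rw [div_le_one hn0]; exact hBle
    have e40 : 0 ≤ (B.card : ℝ) / n := by positivity
    have e5 := gap_sum_le hg ρ m hB
    have e50 : 0 ≤ ∑ x ∈ B, ∑ b ∈ A, P.gap ρ m (x - b) :=
      Finset.sum_nonneg fun x _ => Finset.sum_nonneg fun b _ => hg.gap_nonneg ρ m _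
    have e6 : 2 * ((B.card : ℝ) / n) * ∑ x ∈ B, ∑ b ∈ A, P.gap ρ m (x - b)
        ≤ 2 * (CT * (n ^ 2 * a + t0 * n)) := by
      have := mul_le_mul e4 (le_trans e5 hGp) e50 zero_le_one
      linarith
    have e7 : (B.card : ℝ) ^ 2 * (Real.log (n / B.card) + C0)
        ≤ n ^ 2 * (Real.log (1 / θ) + C0) := by
      have e71 : (B.card : ℝ) ^ 2 ≤ n ^ 2 := by
        apply pow_le_pow_left₀ hBpos.le hBle
      have e72 : 0 ≤ Real.log (n / B.card) := Real.log_nonneg (by
        rw [le_div_iff₀ hBpos]; linarith)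
      apply mul_le_mul e71 (by linarith) (by linarith) (by positivity)
    have e8 : t0 * B.card ≤ t0 * n := mul_le_mul_of_nonneg_left hBle ht00
    have e9 : n ^ 2 * (Real.log (1 / θ) + C0) + t0 * n + 2 * (CT * (n ^ 2 * a + t0 * n))
        ≤ K * (q * n ^ 2) := by
      rw [hqn, hK]
      have f1 : 0 ≤ t0 * n := by positivity
      have f2 : 0 ≤ n ^ 2 := by positivity
      have f3 : 0 ≤ CT * n ^ 2 := by positivity
      have f4 : 0 ≤ CT * a * (t0 * n) := by positivity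
      have f5 : 0 ≤ Real.log (1 / θ) * (t0 * n) := by positivity
      have f6 : 0 ≤ C0 * (t0 * n) := by positivity
      have f7 : (Real.log (1 / θ) + C0 + 1 + 2 * CT * (a + 1)) * (n ^ 2 + t0 * n)
          = n ^ 2 * (Real.log (1 / θ) + C0) + t0 * n + 2 * (CT * (n ^ 2 * a + t0 * n))
            + (n ^ 2 + 2 * (CT * n ^ 2) + Real.log (1 / θ) * (t0 * n) + C0 * (t0 * n)
              + 2 * (CT * a * (t0 * n))) := by ring
      linarith
    linarith
  constructor
  · intro v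
    by_contra hcon
    push Not at hcon
    obtain ⟨z, hz⟩ := hVl v
    set B : Finset R := A.filter fun x => ‖P.em x v - z‖ ≤ 2 * ρ v with hBdef
    have hBA : B ⊆ A := Finset.filter_subset _ _
    have hBc : θ * n < B.card := by
      unfold Data.cntV at hz
      rw [hBdef, hn]
      convert hz
    have hBpos : (0 : ℝ) < B.card := lt_trans (by positivity) hBc
    have hBn : B.Nonempty := Finset.card_pos.1 (by exact_mod_cast hBpos)
    have e1 := main B hBA hBc
    have e2 := DV_le_sum hG hT hgood hρ m hBA hBn v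
    have hρv := hρ v
    have e3 := HL (P.e v) (hg.e_eq v) R A B (fun x => P.em x v) z (ρ v) (2 * ρ v)
      (Real.exp N * ρ v) hBA hBn hρv (by linarith) (by positivity)
      (fun b hb => by
        rw [hBdef, Finset.mem_filter] at hb
        exact hb.2)
      (fun z' => by
        have := hcon z'
        unfold Data.cntV at this
        convert this)
    have e4 : P.DV ρ A B v = ((P.e v : ℝ) / 2) * (-∑ i ∈ A, ∑ j ∈ A,
        ((if i ∈ B then 1 else 0) - (B.card : ℝ) / A.card)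
          * ((if j ∈ B then 1 else 0) - (B.card : ℝ) / A.card)
          * Real.log (‖P.em i v - P.em j v‖ ^ 2 + ρ v ^ 2)) := by
      rw [DV_eq]
      unfold fB
      congr!
    have e5 : Real.log (Real.exp N * ρ v / (2 * ρ v)) = N - Real.log 2 := by
      rw [show Real.exp N * ρ v / (2 * ρ v) = Real.exp N / 2 by field_simp,
        Real.log_div (Real.exp_pos _).ne' (by norm_num), Real.log_exp]
    rw [e5] at e3
    have e6 : cL * (B.card : ℝ) ^ 2 * (N - Real.log 2 - CL) ≤ 2 * P.DV ρ A B v := by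
      refine le_trans e3 ?_
      rw [e4]
      have f1 := hg.e_ge v
      have f2 : 0 ≤ (-∑ i ∈ A, ∑ j ∈ A,
        ((if i ∈ B then 1 else 0) - (B.card : ℝ) / A.card)
          * ((if j ∈ B then 1 else 0) - (B.card : ℝ) / A.card)
          * Real.log (‖P.em i v - P.em j v‖ ^ 2 + ρ v ^ 2)) := by
        have f3 := DV_nonneg hG hg hρ hBA hopt.ne v
        rw [e4] at f3
        have f4 : (0 : ℝ) < (P.e v : ℝ) / 2 := by linarith
        exact nonneg_of_mul_nonneg_right f3 f4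
      have f5 : ∀ w : ℝ, 0 ≤ w → w ≤ 2 * ((P.e v : ℝ) / 2 * w) := by
        intro w hw
        have f6 : 2 * ((P.e v : ℝ) / 2 * w) = (P.e v : ℝ) * w := by ring
        rw [f6]
        exact le_mul_of_one_le_left hw f1
      convert f5 _ f2 using 1
    have e7 : θ ^ 2 * n ^ 2 ≤ (B.card : ℝ) ^ 2 := by
      rw [← mul_pow]
      exact pow_le_pow_left₀ (by positivity) hBc.le 2
    have e8 : 0 ≤ (N : ℝ) - Real.log 2 - CL := by
      have f1 : CV + CTt + 2 ≤ (CV + CTt + 2) * q := le_mul_of_one_le_right (by linarith) hq1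
      have f2 : 0 ≤ 2 * K / (cL * θ ^ 2) := by positivity
      have f3 : Real.log 2 + CL ≤ CV := by rw [hCV]; linarith
      linarith
    have e9 : cL * (θ ^ 2 * n ^ 2) * (N - Real.log 2 - CL) ≤ 2 * (K * (q * n ^ 2)) := by
      have : cL * (θ ^ 2 * n ^ 2) * (N - Real.log 2 - CL)
          ≤ cL * (B.card : ℝ) ^ 2 * (N - Real.log 2 - CL) :=
        mul_le_mul_of_nonneg_right (mul_le_mul_of_nonneg_left e7 hcL.le) e8
      linarith
    have e10 : (N : ℝ) - Real.log 2 - CL ≤ 2 * K / (cL * θ ^ 2) * q := by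
      have f0 : 0 < cL * θ ^ 2 * n ^ 2 := by positivity
      have f1 : 2 * K / (cL * θ ^ 2) * q * (cL * θ ^ 2 * n ^ 2) = 2 * (K * (q * n ^ 2)) := by
        field_simp
      have f2 : ((N : ℝ) - Real.log 2 - CL) * (cL * θ ^ 2 * n ^ 2)
          ≤ 2 * K / (cL * θ ^ 2) * q * (cL * θ ^ 2 * n ^ 2) := by
        rw [f1]; linarith
      exact le_of_mul_le_mul_right f2 f0
    have e11 : (Real.log 2 + CL) ≤ (Real.log 2 + CL) * q := by
      have : 0 ≤ Real.log 2 := Real.log_nonneg (by norm_num)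
      exact le_mul_of_one_le_right (by linarith) hq1
    have e12 : (CTt + 2) * q ≤ 0 := by
      have : (CV + CTt + 2) * q = (Real.log 2 + CL) * q + 2 * K / (cL * θ ^ 2) * q
          + (CTt + 2) * q := by rw [hCV]; ring
      linarith
    have : 0 < (CTt + 2) * q := by positivity
    linarith
  · intro t
    by_contra hcon
    push Not at hcon
    obtain ⟨z, hz⟩ := hTl t
    set B : Finset R := A.filter fun x => P.NearT t (m t + 1) x z with hBdef
    have hBA : B ⊆ A := Finset.filter_subset _ _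
    have hBc : θ * n < B.card := by
      unfold Data.cntT at hz
      rw [hBdef, hn]
      convert hz
    have hBpos : (0 : ℝ) < B.card := lt_trans (by positivity) hBc
    have hBn : B.Nonempty := Finset.card_pos.1 (by exact_mod_cast hBpos)
    have e1 := main B hBA hBc
    have e2 := DT_le_sum hG hT hgood hρ m hBA hBn t
    have hN1 : (1 : ℝ) ≤ N := by
      have f1 : CV + CTt + 2 ≤ (CV + CTt + 2) * q := le_mul_of_one_le_right (by linarith) hq1
      linarith
    have hN1' : (1 : ℕ) ≤ N := by exact_mod_cast hN1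
    have e3 := (hT R P C₁ hgood A B m t hBA hBn).2 η (m t + 1) (m t + N) z hη.le (by linarith)
      (by linarith [(by exact_mod_cast hN1' : (1 : ℤ) ≤ N)])
      (fun b hb => by
        rw [hBdef, Finset.mem_filter] at hb
        exact hb.2) hcon
    have hlq := hg.lq_pos t
    have e4 : (((m t + N - (m t + 1) : ℤ)) : ℝ) = N - 1 := by push_cast; ring
    rw [e4] at e3
    have e5 : η ^ 2 * (θ ^ 2 * n ^ 2) ≤ (η * B.card) ^ 2 := by
      rw [mul_pow, ← mul_pow θ]
      exact mul_le_mul_of_nonneg_left (pow_le_pow_left₀ (by positivity) hBc.le 2) (by positivity)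
    have e6 : P.lq t * (N - 1) * (η ^ 2 * (θ ^ 2 * n ^ 2)) ≤ K * (q * n ^ 2) := by
      have : P.lq t * (N - 1) * (η ^ 2 * (θ ^ 2 * n ^ 2)) ≤ P.lq t * (N - 1) * (η * B.card) ^ 2 :=
        mul_le_mul_of_nonneg_left e5 (mul_nonneg hlq.le (by linarith))
      linarith
    have e7 : (N : ℝ) - 1 ≤ K / (P.lq t * (η ^ 2 * θ ^ 2)) * q := by
      have f0 : 0 < P.lq t * (η ^ 2 * θ ^ 2) * n ^ 2 := by positivity
      have f1 : K / (P.lq t * (η ^ 2 * θ ^ 2)) * q * (P.lq t * (η ^ 2 * θ ^ 2) * n ^ 2)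
          = K * (q * n ^ 2) := by
        field_simp
      have f2 : ((N : ℝ) - 1) * (P.lq t * (η ^ 2 * θ ^ 2) * n ^ 2)
          ≤ K / (P.lq t * (η ^ 2 * θ ^ 2)) * q * (P.lq t * (η ^ 2 * θ ^ 2) * n ^ 2) := by
        rw [f1]; linarith
      exact le_of_mul_le_mul_right f2 f0
    have e8 : K / (P.lq t * (η ^ 2 * θ ^ 2)) ≤ CTt := by
      rw [hCTt]
      exact Finset.single_le_sum (f := fun t => K / (P.lq t * (η ^ 2 * θ ^ 2)))
        (fun t _ => by have := hg.lq_pos t; positivity) (Finset.mem_univ t)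
    have e9 : K / (P.lq t * (η ^ 2 * θ ^ 2)) * q ≤ CTt * q :=
      mul_le_mul_of_nonneg_right e8 (by linarith)
    have e10 : 0 ≤ CV * q := by positivity
    have e11 : (CV + CTt + 2) * q = CV * q + CTt * q + 2 * q := by ring
    linarith

end Pool.NS
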