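import Pool.Agent.Work.MP_b29d7f_ns.Interface3

/-! Block SUB: `A l` is almost a sublevel set of the potential. -/

set_option autoImplicit false

open Finset Filter Topology

namespace Pool.NS

namespace SUB_

open Data Sq

variable {R : Type} [CommRing R] {P : Data R}

/-- exchange inequality for optimal sets -/
lemma exchange {C₁ : ℝ} (hg : P.Geo C₁) {A : Finset R} {L : AddSubgroup R} (h : P.Opt C₁ A L)
    {x y : R} (hx : x ∈ A) (hy : y ∉ A) : ∑ b ∈ A, P.ln (x - b) ≤ ∑ b ∈ A, P.ln (y - b) := by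
  classical
  have hxy : y ≠ x := fun e => hy (e ▸ hx)
  have hyB : y ∉ A.erase x := fun e => hy (Finset.mem_of_mem_erase e)
  have key : ∀ z : R, z ∉ A.erase x →
      P.En (insert z (A.erase x)) = P.En (A.erase x) + 2 * ∑ b ∈ A.erase x, P.ln (z - b) := by
    intro z hz
    unfold En
    rw [Finset.sum_insert hz, Finset.sum_insert hz, sub_self, hg.ln_zero]
    have h1 : ∀ b ∈ A.erase x, ∑ b' ∈ insert z (A.erase x), P.ln (b - b')
        = P.ln (z - b) + ∑ b' ∈ A.erase x, P.ln (b - b') := by
      intro b _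
      rw [Finset.sum_insert hz, hg.ln_symm b z]
    rw [Finset.sum_congr rfl h1, Finset.sum_add_distrib]
    ring
  have hcard : (insert y (A.erase x)).card = A.card := by
    rw [Finset.card_insert_of_notMem hyB, Finset.card_erase_add_one hx]
  have h1 := h.min _ hcard
  rw [key y hyB] at h1
  have h2 := key x (Finset.notMem_erase x A)
  rw [Finset.insert_erase hx] at h2
  rw [h2] at h1
  have h3 : ∑ b ∈ A, P.ln (x - b) = ∑ b ∈ A.erase x, P.ln (x - b) := by
    rw [← Finset.add_sum_erase _ _ hx, sub_self, hg.ln_zero, zero_add]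
  have h4 : ∑ b ∈ A, P.ln (y - b) = P.ln (y - x) + ∑ b ∈ A.erase x, P.ln (y - b) := by
    rw [← Finset.add_sum_erase _ _ hx]
  have h5 := hg.ln_nonneg (y - x) (sub_ne_zero.2 hxy)
  linarith

variable (S : Sq P)

/-- the truncation scale -/
noncomputable def rad (l : ℕ) : P.Ω → ℝ := fun v => Real.exp (-(P.Mx (S.A l).card : ℝ)) * S.s l v

/-- the truncation level -/
noncomputable def lv (l : ℕ) : P.T → ℤ := fun t => S.j l t - P.Mx (S.A l).card

lemma rad_pos (l : ℕ) (v : P.Ω) : 0 < rad S l v := mul_pos (Real.exp_pos _) (S.s_pos l v)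

/-- sum of `kap` in terms of the potential -/
lemma sum_kap (l : ℕ) (x : R) : ∑ b ∈ S.A l, P.kap (rad S l) (lv S l) (x - b)
    = S.n l * (Real.log (S.n l) + S.Ph l x) := by
  have h1 : ∀ b ∈ S.A l, P.kap (rad S l) (lv S l) (x - b) = Real.log (S.n l)
        + (∑ v, (P.e v : ℝ) *
            (Real.log (‖S.X l x v - S.X l b v‖ ^ 2 + Real.exp (-(P.Mx (S.A l).card : ℝ)) ^ 2) / 2)
          + ∑ t, P.lq t * ((P.cap t (S.j l t - P.Mx (S.A l).card) (x - b) - S.j l t : ℤ) : ℝ)) :=
    fun b _ => (stmt_KAPS R P S l (P.Mx (S.A l).card)).2 x b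
  rw [Finset.sum_congr rfl h1, Finset.sum_add_distrib, Finset.sum_add_distrib, Finset.sum_const,
    nsmul_eq_mul, Finset.sum_comm, Finset.sum_comm (s := S.A l) (t := (Finset.univ : Finset P.T))]
  have hn : S.n l ≠ 0 := (S.n_pos l).ne'
  unfold Ph pV pT
  rw [mul_add, mul_add, Finset.mul_sum, Finset.mul_sum]
  congr 1
  congr 1
  · apply Finset.sum_congr rfl
    intro v _
    rw [← Finset.mul_sum, ← Finset.sum_div]
    field_simp
  · apply Finset.sum_congr rfl
    intro t _
    rw [← Finset.mul_sum]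
    field_simp

/-- potential of an element of `A` -/
lemma pot_ge (l : ℕ) {x : R} (hx : x ∈ S.A l) :
    S.n l * (Real.log (S.n l) + S.Ph l x) - P.Nt - ∑ b ∈ S.A l, P.gap (rad S l) (lv S l) (x - b)
      ≤ ∑ b ∈ S.A l, P.ln (x - b) := by
  rw [S.geo.sum_ln (rad_pos S l) (lv S l) hx, sum_kap]
  have h1 : P.deg (rad S l) (lv S l) = Real.log (S.n l) - P.Mx (S.A l).card * P.Nt :=
    (stmt_KAPS R P S l (P.Mx (S.A l).card)).1
  have h2 := S.geo.lt_Mx_mul (S.A l).card
  have h3 : Real.log (S.n l) = Real.log ((S.A l).card : ℝ) := rfl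
  rw [h1, h3]
  linarith

/-- potential of an element outside of `A` -/
lemma pot_le (l : ℕ) {y : R} (hy : y ∉ S.A l) :
    ∑ b ∈ S.A l, P.ln (y - b) ≤ S.n l * (Real.log (S.n l) + S.Ph l y) := by
  rw [← sum_kap]
  exact S.geo.sum_ln_le _ _ hy

/-- sum of the gaps at `x` -/
noncomputable def g (l : ℕ) (x : R) : ℝ := ∑ b ∈ S.A l, P.gap (rad S l) (lv S l) (x - b)

lemma g_nonneg (l : ℕ) (x : R) : 0 ≤ g S l x :=
  Finset.sum_nonneg fun _ _ => S.geo.gap_nonneg _ _ _

/-- small parameter -/
noncomputable def de (l : ℕ) : ℝ := Real.sqrt (S.C * Real.exp (-(S.c * P.Mx (S.A l).card)))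

lemma de_pos (l : ℕ) : 0 < de S l := Real.sqrt_pos.2 (mul_pos S.hC (Real.exp_pos _))

lemma de_sq (l : ℕ) : de S l * de S l = S.C * Real.exp (-(S.c * P.Mx (S.A l).card)) :=
  Real.mul_self_sqrt (mul_pos S.hC (Real.exp_pos _)).le

lemma de_tendsto : Tendsto (fun l => de S l) atTop (𝓝 0) := by
  have h1 : Tendsto (fun l => S.C * Real.exp (-(S.c * P.Mx (S.A l).card))) atTop (𝓝 (S.C * 0)) :=
    S.exp_Mx_tendsto.const_mul _
  rw [mul_zero] at h1
  have h2 := (Real.continuous_sqrt.tendsto 0).comp h1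
  rw [Real.sqrt_zero] at h2
  exact h2

lemma sum_g (l : ℕ) : ∑ x ∈ S.A l, g S l x ≤ de S l * de S l * S.n l ^ 2 := by
  rw [de_sq]
  exact (S.frame l).gapM (P.Mx (S.A l).card) le_rfl

open scoped Classical in
/-- the good elements -/
noncomputable def Ag (l : ℕ) : Finset R := (S.A l).filter fun x => g S l x ≤ de S l * S.n l

open scoped Classical in
lemma bad_card (l : ℕ) :
    (((S.A l).filter fun x => ¬ (g S l x ≤ de S l * S.n l)).card : ℝ) ≤ de S l * S.n l := by
  set B := (S.A l).filter fun x => ¬ (g S l x ≤ de S l * S.n l) with hB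
  have h1 : (B.card : ℝ) * (de S l * S.n l) ≤ ∑ x ∈ B, g S l x := by
    rw [← nsmul_eq_mul, ← Finset.sum_const]
    apply Finset.sum_le_sum
    intro x hx
    exact (not_le.1 (Finset.mem_filter.1 hx).2).le
  have h2 : ∑ x ∈ B, g S l x ≤ ∑ x ∈ S.A l, g S l x :=
    Finset.sum_le_sum_of_subset_of_nonneg (Finset.filter_subset _ _) fun x _ _ => g_nonneg S l x
  have h3 := sum_g S l
  have h4 : 0 < de S l * S.n l := mul_pos (de_pos S l) (S.n_pos l)
  have h5 : (B.card : ℝ) * (de S l * S.n l) ≤ (de S l * S.n l) * (de S l * S.n l) := by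
    nlinarith
  exact le_of_mul_le_mul_right h5 h4

lemma Ag_nonempty (l : ℕ) (h : de S l < 1) : (Ag S l).Nonempty := by
  classical
  by_contra hne
  rw [Finset.not_nonempty_iff_eq_empty] at hne
  have h1 := Finset.card_filter_add_card_filter_not (s := S.A l) (fun x => g S l x ≤ de S l * S.n l)
  have h2 : ((S.A l).filter fun x => g S l x ≤ de S l * S.n l).card = 0 := by
    rw [Finset.card_eq_zero]; exact hne
  have h3 := bad_card S l
  rw [h2, zero_add] at h1
  rw [h1] at h3
  have h4 := S.n_pos l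
  have h5 : ((S.A l).card : ℝ) = S.n l := rfl
  rw [h5] at h3
  nlinarith

open scoped Classical in
/-- the level -/
noncomputable def lam (l : ℕ) : ℝ :=
  if h : (Ag S l).Nonempty then (Ag S l).sup' h (S.Ph l) else 0

lemma lam_spec (l : ℕ) (h : de S l < 1) :
    (∃ x ∈ Ag S l, lam S l = S.Ph l x) ∧ ∀ x ∈ Ag S l, S.Ph l x ≤ lam S l := by
  have hne := Ag_nonempty S l h
  have h1 : lam S l = (Ag S l).sup' hne (S.Ph l) := by
    unfold lam; rw [dif_pos hne]
  rw [h1]
  constructor
  · obtain ⟨x, hx, hx'⟩ := Finset.exists_mem_eq_sup' hne (S.Ph l)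
    exact ⟨x, hx, hx'⟩
  · intro x hx
    exact Finset.le_sup' (S.Ph l) hx

/-- exchange inequality for the potentials -/
lemma lam_le (l : ℕ) (h : de S l < 1) {y : R} (hy : y ∉ S.A l) :
    lam S l ≤ S.Ph l y + P.Nt / S.n l + de S l := by
  obtain ⟨⟨x, hx, hxl⟩, -⟩ := lam_spec S l h
  rw [hxl]
  have hx1 : x ∈ S.A l := (Finset.mem_filter.1 hx).1
  have hx2 : g S l x ≤ de S l * S.n l := (Finset.mem_filter.1 hx).2
  have h1 := exchange S.geo (S.opt l) hx1 hy
  have h2 := pot_ge S l hx1
  have h3 := pot_le S l hy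
  unfold g at hx2
  have hn := S.n_pos l
  have h4 : S.n l * S.Ph l x ≤ S.n l * (S.Ph l y + P.Nt / S.n l + de S l) := by
    have : S.n l * (P.Nt / S.n l) = P.Nt := by field_simp
    nlinarith
  exact le_of_mul_le_mul_left h4 hn

lemma tendsto_err : Tendsto (fun l => P.Nt / S.n l + de S l) atTop (𝓝 0) := by
  have h1 : Tendsto (fun l => P.Nt / S.n l) atTop (𝓝 0) := Tendsto.const_div_atTop S.card _
  have h2 := h1.add (de_tendsto S)
  rwa [add_zero] at h2

end SUB_

open Data Sq SUB_ in
theorem stmt_SUB (hLB : Stmt_LB) (hUB : Stmt_UB) (hCL : Stmt_CNTL) : Stmt_SUB := by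
  intro R _ P S
  have hg := S.geo
  have hde1 : ∀ᶠ l in atTop, de S l < 1 := (de_tendsto S).eventually_lt_const one_pos
  refine ⟨lam S, ?_, ?_, ?_⟩
  · -- bounds
    obtain ⟨CL, hCL0, hL⟩ := hLB R P S
    obtain ⟨CU, hCU0, hU⟩ := hUB R P S
    obtain ⟨Cc, c, hc, hcnt⟩ := hCL R P S.C₁ hg
    -- lower bound for `Ph`
    have hlow : ∀ l (x : R), -(∑ v, (P.e v : ℝ) * CL + ∑ t, P.lq t * CL) ≤ S.Ph l x := by
      intro l x
      obtain ⟨h1, h2, h3⟩ := hL l (P.Mx (S.A l).card) le_rfl
      have e1 : ∀ v ∈ (Finset.univ : Finset P.Ω), -((P.e v : ℝ) * CL) ≤ S.pV l v (S.X l x v) := by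
        intro v _
        have h4 := h1 v (S.X l x v)
        have h5 : 0 ≤ Real.posLog ‖S.X l x v‖ := Real.posLog_nonneg
        have h6 : (0 : ℝ) ≤ P.e v := Nat.cast_nonneg _
        unfold pV
        rw [← mul_neg]
        apply mul_le_mul_of_nonneg_left _ h6
        linarith
      have e2 : ∀ t ∈ (Finset.univ : Finset P.T), -(P.lq t * CL) ≤ P.lq t * ((S.n l)⁻¹ *
          ∑ b ∈ S.A l, ((P.cap t (S.j l t - P.Mx (S.A l).card) (x - b) - S.j l t : ℤ) : ℝ)) := by
        intro t _
        rw [← mul_neg]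
        apply mul_le_mul_of_nonneg_left _ (hg.lq_pos t).le
        by_cases hx : x = 0
        · rw [hx]; exact h3 t
        · have h4 := h2 t x hx
          have h5 : (0 : ℝ) ≤ ((max (P.lev t x - S.j l t) 0 : ℤ) : ℝ) := by
            exact_mod_cast le_max_right _ _
          linarith
      have e3 := Finset.sum_le_sum e1
      have e4 := Finset.sum_le_sum e2
      rw [Finset.sum_neg_distrib] at e3 e4
      unfold Ph pT
      linarith
    -- the box
    set D : ℝ := ∑ v, (P.e v : ℝ) with hD
    have hD1 : 1 ≤ D := by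
      obtain ⟨v⟩ := hg.ne
      exact le_trans (hg.e_ge v) (Finset.single_le_sum (f := fun v => (P.e v : ℝ))
        (fun _ _ => Nat.cast_nonneg _) (Finset.mem_univ v))
    set k : ℝ := max 0 (max (Real.log (2 / c)) Cc) with hk
    have hk0 : 0 ≤ k := le_max_left _ _
    have hkc : Real.log (2 / c) ≤ k := le_trans (le_max_left _ _) (le_max_right _ _)
    have hkC : Cc ≤ k := le_trans (le_max_right _ _) (le_max_right _ _)
    refine ⟨(∑ v, (P.e v : ℝ) * CL + ∑ t, P.lq t * CL)
      + (∑ v, (P.e v : ℝ) * (k + CU) + ∑ t, P.lq t * CU) + 1, ?_⟩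
    have herr : ∀ᶠ l in atTop, P.Nt / S.n l + de S l < 1 :=
      (tendsto_err S).eventually_lt_const one_pos
    filter_upwards [hde1, herr, hU] with l h1 h2 h3
    have hsum1 : 0 ≤ ∑ v, (P.e v : ℝ) * CL + ∑ t, P.lq t * CL :=
      add_nonneg (Finset.sum_nonneg fun v _ => mul_nonneg (Nat.cast_nonneg _) hCL0)
        (Finset.sum_nonneg fun t _ => mul_nonneg (hg.lq_pos t).le hCL0)
    have hsum2 : 0 ≤ ∑ v, (P.e v : ℝ) * (k + CU) + ∑ t, P.lq t * CU :=
      add_nonneg (Finset.sum_nonneg fun v _ => mul_nonneg (Nat.cast_nonneg _) (by linarith))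
        (Finset.sum_nonneg fun t _ => mul_nonneg (hg.lq_pos t).le hCU0)
    rw [abs_le]
    constructor
    · obtain ⟨⟨x, -, hx⟩, -⟩ := lam_spec S l h1
      rw [hx]
      have := hlow l x
      linarith
    · -- an element of the box outside of `A`
      have hpos : ∀ v, 0 < Real.exp k * S.s l v := fun v => mul_pos (Real.exp_pos _) (S.s_pos l v)
      have hdeg : P.deg (fun v => Real.exp k * S.s l v) (S.j l) = Real.log (S.n l) + k * D := by
        have e0 := (S.frame l).deg_eq
        have e1 : Real.log (S.n l) = P.deg (S.s l) (S.j l) := e0.symm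
        rw [e1, hD]
        unfold Data.deg
        rw [Finset.mul_sum, add_right_comm, ← Finset.sum_add_distrib]
        congr 1
        apply Finset.sum_congr rfl
        intro v _
        rw [Real.log_mul (Real.exp_pos _).ne' (S.s_pos l v).ne', Real.log_exp]
        ring
      have hlogn : 0 ≤ Real.log (S.n l) := Real.log_nonneg (S.one_le_n l)
      have hkD : k ≤ k * D := by nlinarith
      obtain ⟨B, hB1, hB2⟩ := hcnt (fun v => Real.exp k * S.s l v) (S.j l) hpos
        (by rw [hdeg]; linarith) (fun _ => 0) 0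
      have hBc : S.n l < B.card := by
        rw [hdeg, Real.exp_add, Real.exp_log (S.n_pos l)] at hB1
        have e1 : 2 / c ≤ Real.exp (k * D) := by
          rw [← Real.log_le_iff_le_exp (by positivity)]
          linarith
        have e2 : 2 ≤ c * Real.exp (k * D) := by
          rw [div_le_iff₀ hc] at e1
          linarith
        have e3 := S.n_pos l
        nlinarith
      have hBc' : (S.A l).card < B.card := by
        have : ((S.A l).card : ℝ) < B.card := hBc
        exact_mod_cast this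
      obtain ⟨y, hyB, hyA⟩ := Finset.exists_mem_notMem_of_card_lt_card hBc'
      have e1 := lam_le S l h1 hyA
      obtain ⟨hy1, hy2⟩ := hB2 y hyB
      obtain ⟨u1, u2, u3⟩ := h3 (P.Mx (S.A l).card)
      have e2 : S.Ph l y ≤ ∑ v, (P.e v : ℝ) * (k + CU) + ∑ t, P.lq t * CU := by
        unfold Ph pT pV
        apply add_le_add
        · apply Finset.sum_le_sum
          intro v _
          apply mul_le_mul_of_nonneg_left _ (Nat.cast_nonneg _)
          have h4 := u1 v (S.X l y v)
          have h5 : Real.posLog ‖S.X l y v‖ ≤ k := by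
            have h6 : ‖S.X l y v‖ ≤ Real.exp k := by
              rw [S.norm_X, div_le_iff₀ (S.s_pos l v)]
              simpa using hy1 v
            rw [Real.posLog, max_le_iff]
            refine ⟨hk0, ?_⟩
            rcases eq_or_lt_of_le (norm_nonneg (S.X l y v)) with h7 | h7
            · rw [← h7, Real.log_zero]; exact hk0
            · rwa [Real.log_le_iff_le_exp h7]
          linarith
        · apply Finset.sum_le_sum
          intro t _
          apply mul_le_mul_of_nonneg_left _ (hg.lq_pos t).le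
          by_cases hy0 : y = 0
          · rw [hy0]; exact u3 t
          · have h4 := u2 t y hy0
            have h5 : P.lev t y ≤ S.j l t := by
              rcases hy2 t with h6 | h6
              · exact absurd h6 hy0
              · rwa [sub_zero] at h6
            rw [max_eq_right (by linarith : P.lev t y - S.j l t ≤ 0)] at h4
            simpa using h4
      linarith
  · -- mem
    intro ε hε
    have herr : ∀ᶠ l in atTop, P.Nt / S.n l + de S l < ε :=
      (tendsto_err S).eventually_lt_const hε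
    filter_upwards [hde1, herr] with l h1 h2 y hy
    by_contra hyA
    have := lam_le S l h1 hyA
    linarith
  · -- few
    intro ε hε
    have h3 : ∀ᶠ l in atTop, de S l < ε := (de_tendsto S).eventually_lt_const hε
    filter_upwards [hde1, h3] with l h1 h2
    obtain ⟨-, h4⟩ := lam_spec S l h1
    have h5 : ((S.A l).filter fun x => lam S l < S.Ph l x)
        ⊆ (S.A l).filter fun x => ¬ (g S l x ≤ de S l * S.n l) := by
      intro x hx
      rw [Finset.mem_filter] at hx ⊢
      refine ⟨hx.1, fun h6 => ?_⟩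
      have := h4 x (Finset.mem_filter.2 ⟨hx.1, h6⟩)
      linarith [hx.2]
    have h6 := Finset.card_le_card h5
    have h7 := bad_card S l
    have h8 : (((S.A l).filter fun x => lam S l < S.Ph l x).card : ℝ)
      ≤ ((S.A l).filter fun x => ¬ (g S l x ≤ de S l * S.n l)).card := by exact_mod_cast h6
    have h9 := S.n_pos l
    nlinarith

end Pool.NS
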