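import Pool.Agent.Work.MP_b29d7f_ns.Interface3

/-! Block T2: the right scales. -/

set_option autoImplicit false

open Finset Filter Topology

namespace Pool.NS

namespace T2_

open Data

variable {R : Type} [CommRing R] {P : Data R} {C₁ : ℝ}

/-- degree after scaling by `exp N` -/
lemma deg_scale {ρ : P.Ω → ℝ} (hρ : ∀ v, 0 < ρ v) (m : P.T → ℤ) (N : ℕ) :
    P.deg (fun v => Real.exp N * ρ v) (fun t => m t + N) = P.deg ρ m + N * P.Nt := by
  unfold deg Nt
  rw [mul_add, Finset.mul_sum, Finset.mul_sum, add_add_add_comm, ← Finset.sum_add_distrib,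
    ← Finset.sum_add_distrib]
  congr 1
  · apply Finset.sum_congr rfl
    intro v _
    rw [Real.log_mul (Real.exp_pos _).ne' (hρ v).ne', Real.log_exp]
    ring
  · apply Finset.sum_congr rfl
    intro t _
    push_cast
    ring

open scoped Classical in
/-- intersection of heavy sets -/
lemma heavy_inter {ι κ α : Type} [Fintype ι] [Fintype κ] (A : Finset α) (p : ι → α → Prop)
    (q : κ → α → Prop) (δ : ℝ)
    (hp : ∀ i, (A.card : ℝ) - δ < (A.filter (p i)).card)
    (hq : ∀ i, (A.card : ℝ) - δ < (A.filter (q i)).card) :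
    (A.card : ℝ) - (Fintype.card ι + Fintype.card κ) * δ
      ≤ (A.filter fun x => (∀ i, p i x) ∧ ∀ j, q j x).card := by
  have hsub : A ⊆ (A.filter fun x => (∀ i, p i x) ∧ ∀ j, q j x)
      ∪ ((Finset.univ.biUnion fun i => A.filter fun x => ¬ p i x)
        ∪ (Finset.univ.biUnion fun j => A.filter fun x => ¬ q j x)) := by
    intro x hx
    rw [Finset.mem_union, Finset.mem_union, Finset.mem_biUnion, Finset.mem_biUnion]
    by_cases h1 : ∀ i, p i x
    · by_cases h2 : ∀ j, q j x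
      · left; rw [Finset.mem_filter]; exact ⟨hx, h1, h2⟩
      · right; right
        push Not at h2
        obtain ⟨j, hj⟩ := h2
        exact ⟨j, Finset.mem_univ _, Finset.mem_filter.2 ⟨hx, hj⟩⟩
    · right; left
      push Not at h1
      obtain ⟨j, hj⟩ := h1
      exact ⟨j, Finset.mem_univ _, Finset.mem_filter.2 ⟨hx, hj⟩⟩
  have h1 := Finset.card_le_card hsub
  have h2 := Finset.card_union_le (A.filter fun x => (∀ i, p i x) ∧ ∀ j, q j x)
    ((Finset.univ.biUnion fun i => A.filter fun x => ¬ p i x)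
        ∪ (Finset.univ.biUnion fun j => A.filter fun x => ¬ q j x))
  have h3 := Finset.card_union_le (Finset.univ.biUnion fun i => A.filter fun x => ¬ p i x)
    (Finset.univ.biUnion fun j => A.filter fun x => ¬ q j x)
  have h4 : (Finset.univ.biUnion fun i => A.filter fun x => ¬ p i x).card
      ≤ ∑ i : ι, (A.filter fun x => ¬ p i x).card := Finset.card_biUnion_le
  have h5 : (Finset.univ.biUnion fun i => A.filter fun x => ¬ q i x).card
      ≤ ∑ i : κ, (A.filter fun x => ¬ q i x).card := Finset.card_biUnion_le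
  have h6 : (A.card : ℝ) ≤ (A.filter fun x => (∀ i, p i x) ∧ ∀ j, q j x).card
      + (((∑ i : ι, (A.filter fun x => ¬ p i x).card : ℕ) : ℝ)
        + ((∑ i : κ, (A.filter fun x => ¬ q i x).card : ℕ) : ℝ)) := by
    exact_mod_cast (by omega : A.card ≤ (A.filter fun x => (∀ i, p i x) ∧ ∀ j, q j x).card
      + (∑ i : ι, (A.filter fun x => ¬ p i x).card
        + ∑ i : κ, (A.filter fun x => ¬ q i x).card))
  have h7 : ((∑ i : ι, (A.filter fun x => ¬ p i x).card : ℕ) : ℝ) ≤ Fintype.card ι * δ := by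
    push_cast
    calc ∑ i : ι, ((A.filter fun x => ¬ p i x).card : ℝ) ≤ ∑ _i : ι, δ := by
          apply Finset.sum_le_sum
          intro i _
          have e1 := Finset.card_filter_add_card_filter_not (s := A) (p i)
          have e2 : ((A.filter (p i)).card : ℝ) + (A.filter fun x => ¬ p i x).card = A.card := by
            exact_mod_cast e1
          linarith [hp i]
      _ = Fintype.card ι * δ := by simp
  have h8 : ((∑ i : κ, (A.filter fun x => ¬ q i x).card : ℕ) : ℝ) ≤ Fintype.card κ * δ := by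
    push_cast
    calc ∑ i : κ, ((A.filter fun x => ¬ q i x).card : ℝ) ≤ ∑ _i : κ, δ := by
          apply Finset.sum_le_sum
          intro i _
          have e1 := Finset.card_filter_add_card_filter_not (s := A) (q i)
          have e2 : ((A.filter (q i)).card : ℝ) + (A.filter fun x => ¬ q i x).card = A.card := by
            exact_mod_cast e1
          linarith [hq i]
      _ = Fintype.card κ * δ := by simp
  linarith

/-- upper bound for the degree -/
lemma deg_upper (hg : P.Geo C₁) {A : Finset R} {L : AddSubgroup R} (hopt : P.Opt C₁ A L)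
    {ρ : P.Ω → ℝ} (hρ : ∀ v, 0 < ρ v) (m : P.T → ℤ) {a : ℝ} (ha : 0 ≤ a) (h2 : 2 ≤ A.card)
    (hGp : P.Gp ρ m A ≤ a * (A.card : ℝ) ^ 2) :
    P.deg ρ m ≤ Real.log A.card + 1 + 2 * (C₁ + a) := by
  have e1 : P.En A ≤ A.card * (A.card * (Real.log A.card + C₁)) := by
    unfold En
    calc ∑ x ∈ A, ∑ y ∈ A, P.ln (x - y) ≤ ∑ _x ∈ A, (A.card * (Real.log A.card + C₁) : ℝ) :=
          Finset.sum_le_sum fun x hx => hopt.pot x hx
      _ = A.card * (A.card * (Real.log A.card + C₁)) := by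
          rw [Finset.sum_const, nsmul_eq_mul]
  rw [hg.En_eq hρ m] at e1
  have e2 : (A.card : ℝ) * (A.card * P.deg ρ m) ≤ ∑ x ∈ A, ∑ y ∈ A, P.kap ρ m (x - y) := by
    calc (A.card : ℝ) * (A.card * P.deg ρ m) = ∑ _x ∈ A, ∑ _y ∈ A, P.deg ρ m := by
          simp only [Finset.sum_const, nsmul_eq_mul]
      _ ≤ _ := Finset.sum_le_sum fun x _ => Finset.sum_le_sum fun y _ => hg.deg_le_kap hρ m _
  set n : ℝ := (A.card : ℝ) with hn
  have hn2 : (2 : ℝ) ≤ n := by rw [hn]; exact_mod_cast h2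
  have hC := hg.C₁_nonneg
  have e3 : n * ((n - 1) * P.deg ρ m) ≤ n * (n * (Real.log n + C₁ + a)) := by
    have f1 : n * ((n - 1) * P.deg ρ m) = n * (n * P.deg ρ m) - n * P.deg ρ m := by ring
    have f2 : n * (n * (Real.log n + C₁ + a)) = n * (n * (Real.log n + C₁)) + a * n ^ 2 := by ring
    rw [f1, f2]
    linarith
  have e4 : (n - 1) * P.deg ρ m ≤ n * (Real.log n + C₁ + a) :=
    le_of_mul_le_mul_left e3 (by linarith)
  have e5 : Real.log n ≤ n - 1 := Real.log_le_sub_one_of_pos (by linarith)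
  have e6 : n * (Real.log n + C₁ + a) ≤ (n - 1) * (Real.log n + 1 + 2 * (C₁ + a)) := by
    have f1 : 0 ≤ (n - 2) * (C₁ + a) := mul_nonneg (by linarith) (by linarith)
    nlinarith
  exact le_of_mul_le_mul_left (le_trans e4 e6) (by linarith)

end T2_

open Data T2_ in
theorem stmt_T2 (hS : Stmt_SCAL) (hC : Stmt_CONC) (h1 : Stmt_T1) (hN : Stmt_CNT) : Stmt_T2 := by
  classical
  intro R _ P C₁ hgood θ₀ hθ₀ hθ₀'
  have hg := hgood.toGeo
  obtain ⟨θ₁, hθ₁, hθ₁', HC⟩ := hC R P C₁ hgood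
  obtain ⟨θ₂, CT, hθ₂, hθ₂', hCT, H1⟩ := h1 R P C₁ hgood
  obtain ⟨CN, hCN, HN⟩ := hN R P C₁ hg
  set θ : ℝ := min θ₀ (min θ₁ θ₂) with hθdef
  have hθ : 0 < θ := lt_min hθ₀ (lt_min hθ₁ hθ₂)
  have hθa : θ ≤ θ₀ := min_le_left _ _
  have hθb : θ ≤ θ₁ := le_trans (min_le_right _ _) (min_le_left _ _)
  have hθc : θ ≤ θ₂ := le_trans (min_le_right _ _) (min_le_right _ _)
  set p : ℝ := (Fintype.card P.Ω : ℝ) + Fintype.card P.T with hp
  have hp1 : 1 ≤ p := by
    have := hg.ne
    have : (1 : ℝ) ≤ Fintype.card P.Ω := by exact_mod_cast Fintype.card_pos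
    have h2 : (0 : ℝ) ≤ Fintype.card P.T := Nat.cast_nonneg _
    linarith
  set η : ℝ := 1 / (8 * p) with hη
  have hη0 : 0 < η := by positivity
  have hη1 : η ≤ 1 / 2 := by
    rw [hη, div_le_div_iff₀ (by positivity) (by norm_num)]
    linarith
  have hpη : p * η = 1 / 8 := by rw [hη]; field_simp
  obtain ⟨Cc, HC'⟩ := HC θ hθ hθb η hη0 hη1
  have hNt := hg.Nt_pos
  have hlogθ : 0 ≤ Real.log (1 / θ) := Real.log_nonneg (by
    rw [le_div_iff₀ hθ]; linarith)
  set a' : ℝ := CT * (θ * (Real.log (1 / θ) + 1)) with ha'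
  have ha'0 : 0 ≤ a' := by positivity
  set CN' : ℝ := CN + 1 with hCN'
  have hCN'0 : 0 < CN' := by linarith
  have hlogCN : 0 ≤ Real.log (2 * CN') := Real.log_nonneg (by linarith)
  set a : ℝ := Real.log (2 * CN') + (Cc + 1) * P.Nt with ha
  have ha0 : 0 ≤ a := by positivity
  have hC1 := hg.C₁_nonneg
  refine ⟨⌈a + 1 + 2 * (C₁ + a')⌉₊ + Cc + 1,
    ⌈1 / θ + 8 * CN' + Cc * P.Nt + Real.exp a + 2⌉₊, ?_⟩
  intro A L hopt hcard
  have hcard' : 1 / θ + 8 * CN' + Cc * P.Nt + Real.exp a + 2 ≤ A.card := Nat.ceil_le.1 hcard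
  set n : ℝ := (A.card : ℝ) with hn
  have k1 : 0 < 1 / θ := by positivity
  have k2 : 0 ≤ (Cc : ℝ) * P.Nt := by positivity
  have k3 := Real.exp_pos a
  have hn0 : 0 < n := by linarith
  have hn2 : 2 ≤ A.card := by
    have : (2 : ℝ) ≤ A.card := by rw [← hn]; linarith
    exact_mod_cast this
  obtain ⟨ρ, m, hρ, hVs, hTs, hVl, hTl⟩ := hS R P C₁ hg θ hθ (by linarith) A
    (by rw [← hn]; linarith)
  set t0 : ℝ := max 0 (-(P.deg ρ m)) with ht0
  have ht00 : 0 ≤ t0 := le_max_left _ _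
  set N : ℕ := ⌈(Cc : ℝ) * (1 + t0 / n)⌉₊ with hNdef
  have hN1 : (Cc : ℝ) * (1 + t0 / n) ≤ N := Nat.le_ceil _
  have hN2 : (N : ℝ) < Cc * (1 + t0 / n) + 1 := Nat.ceil_lt_add_one (by positivity)
  obtain ⟨hV, hT⟩ := HC' A L hopt ρ m hρ hVs hTs hVl hTl N hN1
  choose z hz using hV
  choose w hw using hT
  set A₀ : Finset R := A.filter fun x => (∀ v, ‖P.em x v - z v‖ ≤ Real.exp N * ρ v) ∧
    ∀ t, P.NearT t (m t + N) x (w t) with hA₀
  have hA0A : A₀ ⊆ A := Finset.filter_subset _ _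
  have hA0c : (7 / 8 : ℝ) * n ≤ A₀.card := by
    have e1 := heavy_inter A (fun (v : P.Ω) x => ‖P.em x v - z v‖ ≤ Real.exp N * ρ v)
      (fun (t : P.T) x => P.NearT t (m t + N) x (w t)) (η * n)
      (fun v => by
        have := hz v
        unfold Data.cntV at this
        have e2 : n - η * n = (1 - η) * n := by ring
        rw [e2]
        convert this)
      (fun t => by
        have := hw t
        unfold Data.cntT at this
        have e2 : n - η * n = (1 - η) * n := by ring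
        rw [e2]
        convert this)
    have e3 : n - p * (η * n) = (7 / 8 : ℝ) * n := by
      rw [← mul_assoc, hpη]; ring
    rw [← e3]
    convert e1
  have hA0ne : A₀.Nonempty := by
    rw [← Finset.card_pos]
    have : (0 : ℝ) < A₀.card := by linarith
    exact_mod_cast this
  obtain ⟨a₀, ha₀⟩ := hA0ne
  have hbox : ∀ x ∈ A₀, (∀ v, ‖P.em x v - z v‖ ≤ Real.exp N * ρ v) ∧
      ∀ t, P.NearT t (m t + N) x a₀ := by
    intro x hx
    rw [hA₀, Finset.mem_filter] at hx ha₀
    exact ⟨hx.2.1, fun t => hg.nearT_trans (hx.2.2 t) (hg.nearT_symm (ha₀.2.2 t))⟩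
  have hbox' : ∀ x ∈ A₀, ∀ v, ‖P.em (x - a₀) v‖ ≤ 2 * Real.exp N * ρ v := by
    intro x hx v
    have e1 := (hbox x hx).1 v
    have e2 := (hbox a₀ ha₀).1 v
    rw [em_sub]
    have e3 : P.em x v - P.em a₀ v = (P.em x v - z v) - (P.em a₀ v - z v) := by abel
    rw [e3]
    have e4 := norm_sub_le (P.em x v - z v) (P.em a₀ v - z v)
    linarith
  -- lower bound for the degree
  have hcnt := HN (fun v => Real.exp N * ρ v) (fun t => m t + N)
    (fun v => mul_pos (Real.exp_pos _) (hρ v)) z a₀ A₀ hbox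
  rw [deg_scale hρ] at hcnt
  have hlow1 : n / 2 ≤ CN' * Real.exp (P.deg ρ m + N * P.Nt) := by
    have e1 := Real.exp_pos (P.deg ρ m + N * P.Nt)
    have e2 : CN ≤ CN' := by linarith
    have e3 : CN * (1 + Real.exp (P.deg ρ m + N * P.Nt))
        ≤ CN' * (1 + Real.exp (P.deg ρ m + N * P.Nt)) :=
      mul_le_mul_of_nonneg_right e2 (by linarith)
    rw [mul_add, mul_one] at e3
    linarith
  have hlow2 : Real.log n - Real.log (2 * CN') ≤ P.deg ρ m + N * P.Nt := by
    rw [← Real.log_div (by positivity) (by positivity), Real.log_le_iff_le_exp (by positivity),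
      div_le_iff₀ (by positivity)]
    linarith
  have hlow3 : Real.log n - a ≤ P.deg ρ m + Cc * P.Nt * (t0 / n) := by
    have e1 : (N : ℝ) * P.Nt ≤ (Cc * (1 + t0 / n) + 1) * P.Nt :=
      mul_le_mul_of_nonneg_right hN2.le hNt.le
    have e2 : (Cc * (1 + t0 / n) + 1) * P.Nt = (Cc + 1) * P.Nt + Cc * P.Nt * (t0 / n) := by ring
    rw [ha]
    linarith
  have hlogn : a < Real.log n := by
    rw [Real.lt_log_iff_exp_lt hn0]
    linarith
  have hdeg0 : 0 ≤ P.deg ρ m := by
    by_contra hneg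
    push Not at hneg
    have e1 : t0 = -(P.deg ρ m) := by rw [ht0]; exact max_eq_right (by linarith)
    rw [e1] at hlow3
    have e2 : P.deg ρ m + Cc * P.Nt * (-(P.deg ρ m) / n)
        = P.deg ρ m * (1 - Cc * P.Nt / n) := by field_simp; ring
    rw [e2] at hlow3
    have e3 : 0 ≤ 1 - Cc * P.Nt / n := by
      rw [sub_nonneg, div_le_one hn0]
      linarith
    have e4 : P.deg ρ m * (1 - Cc * P.Nt / n) ≤ 0 := mul_nonpos_of_nonpos_of_nonneg hneg.le e3
    linarith
  have ht0z : t0 = 0 := by rw [ht0]; exact max_eq_left (by linarith)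
  have hNC : N = Cc := by
    rw [hNdef, ht0z]
    simp
  rw [ht0z] at hlow3
  rw [zero_div, mul_zero, add_zero] at hlow3
  -- upper bound
  have hGp : P.Gp ρ m A ≤ a' * n ^ 2 := by
    have e1 := H1 A L hopt ρ m θ hρ hθ hθc hVs hTs
    rw [← ht0, ht0z] at e1
    rw [ha']
    linarith
  have hup := deg_upper hg hopt hρ m ha'0 hn2 hGp
  refine ⟨ρ, m, hρ, ?_, ?_, ?_, a₀, hA0A ha₀, A₀, hA0A, ?_, ?_⟩
  · intro v z'
    exact le_trans (hVs v z') (mul_le_mul_of_nonneg_right hθa hn0.le)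
  · intro t a''
    exact le_trans (hTs t a'') (mul_le_mul_of_nonneg_right hθa hn0.le)
  · have e1 : a + 1 + 2 * (C₁ + a') ≤ ⌈a + 1 + 2 * (C₁ + a')⌉₊ := Nat.le_ceil _
    have e2 : (0 : ℝ) ≤ Cc := Nat.cast_nonneg _
    push_cast
    rw [abs_le]
    constructor <;> linarith
  · linarith
  · intro x hx
    constructor
    · intro v
      refine le_trans (hbox' x hx v) ?_
      apply mul_le_mul_of_nonneg_right _ (hρ v).le
      have e1 : (2 : ℝ) ≤ Real.exp 1 := by
        have := Real.add_one_le_exp (1 : ℝ)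
        linarith
      have e2 : Real.exp 1 * Real.exp N ≤ Real.exp ((⌈a + 1 + 2 * (C₁ + a')⌉₊ + Cc + 1 : ℕ) : ℝ) := by
        rw [← Real.exp_add, Real.exp_le_exp, hNC]
        push_cast
        have : (0 : ℝ) ≤ ⌈a + 1 + 2 * (C₁ + a')⌉₊ := Nat.cast_nonneg _
        linarith
      have e3 := Real.exp_pos (N : ℝ)
      nlinarith
    · intro t
      apply Data.NearT.mono _ ((hbox x hx).2 t)
      rw [hNC]
      push_cast
      have : (0 : ℤ) ≤ (⌈a + 1 + 2 * (C₁ + a')⌉₊ : ℤ) := Int.natCast_nonneg _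
      linarith

end Pool.NS
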