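import Pool.Agent.Work.MP_b29d7f_ns.Interface3

/-! Block T3: exponential decay of the mass of small balls. -/

set_option autoImplicit false

open Finset Filter Topology

namespace Pool.NS

namespace T3_

open Data

variable {R : Type} [CommRing R] {P : Data R} {C₁ : ℝ}

lemma DV_eq (ρ : P.Ω → ℝ) (A B : Finset R) (v : P.Ω) :
    P.DV ρ A B v = ((P.e v : ℝ) / 2) * (-∑ i ∈ A, ∑ j ∈ A, fB A B i * fB A B j *
      Real.log (‖P.em i v - P.em j v‖ ^ 2 + ρ v ^ 2)) := by
  unfold DV
  simp only [em_sub]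
  ring

lemma DV_nonneg (hG : Stmt_PDG) (h : P.Geo C₁) {ρ : P.Ω → ℝ} (hρ : ∀ v, 0 < ρ v)
    {A B : Finset R} (hB : B ⊆ A) (hA : A.Nonempty) (v : P.Ω) : 0 ≤ P.DV ρ A B v := by
  rw [DV_eq]
  have h1 := hG (P.e v) (h.e_eq v) R A (fun x => P.em x v) (fB A B) (ρ v) (hρ v) (fB_sum hB hA)
  exact mul_nonneg (by positivity) (by linarith)

lemma DT_nonneg (hT : Stmt_PDT) (h : P.Good C₁) (m : P.T → ℤ)
    {A B : Finset R} (hB : B ⊆ A) (hBn : B.Nonempty) (t : P.T) : 0 ≤ P.DT m A B t :=
  (hT R P C₁ h A B m t hB hBn).1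

lemma DV_le_sum (hG : Stmt_PDG) (hT : Stmt_PDT) (h : P.Good C₁) {ρ : P.Ω → ℝ} (hρ : ∀ v, 0 < ρ v)
    (m : P.T → ℤ) {A B : Finset R} (hB : B ⊆ A) (hBn : B.Nonempty) (v : P.Ω) :
    P.DV ρ A B v ≤ ∑ v, P.DV ρ A B v + ∑ t, P.DT m A B t := by
  have hA : A.Nonempty := hBn.mono hB
  have h1 := Finset.single_le_sum (f := fun v => P.DV ρ A B v)
    (fun v _ => DV_nonneg hG h.toGeo hρ hB hA v) (Finset.mem_univ v)
  have h2 : 0 ≤ ∑ t, P.DT m A B t := Finset.sum_nonneg fun t _ => DT_nonneg hT h m hB hBn t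
  linarith

lemma DT_le_sum (hG : Stmt_PDG) (hT : Stmt_PDT) (h : P.Good C₁) {ρ : P.Ω → ℝ} (hρ : ∀ v, 0 < ρ v)
    (m : P.T → ℤ) {A B : Finset R} (hB : B ⊆ A) (hBn : B.Nonempty) (t : P.T) :
    P.DT m A B t ≤ ∑ v, P.DV ρ A B v + ∑ t, P.DT m A B t := by
  have hA : A.Nonempty := hBn.mono hB
  have h1 := Finset.single_le_sum (f := fun t => P.DT m A B t)
    (fun t _ => DT_nonneg hT h m hB hBn t) (Finset.mem_univ t)
  have h2 : 0 ≤ ∑ v, P.DV ρ A B v :=
    Finset.sum_nonneg fun v _ => DV_nonneg hG h.toGeo hρ hB hA v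
  linarith

lemma gap_sum_le (h : P.Geo C₁) (ρ : P.Ω → ℝ) (m : P.T → ℤ) {A B : Finset R} (hB : B ⊆ A) :
    ∑ x ∈ B, ∑ b ∈ A, P.gap ρ m (x - b) ≤ P.Gp ρ m A := by
  unfold Gp
  exact Finset.sum_le_sum_of_subset_of_nonneg hB fun x _ _ =>
    Finset.sum_nonneg fun b _ => h.gap_nonneg ρ m _

/-- the degree at scale `M` -/
lemma deg_scale {s : P.Ω → ℝ} (hs : ∀ v, 0 < s v) (j : P.T → ℤ) (M : ℕ) :
    P.deg (fun v => Real.exp (-(M : ℝ)) * s v) (fun t => j t - M) = P.deg s j - M * P.Nt := by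
  unfold deg Nt
  rw [mul_add, Finset.mul_sum, Finset.mul_sum, add_sub_add_comm, ← Finset.sum_sub_distrib,
    ← Finset.sum_sub_distrib]
  congr 1
  · apply Finset.sum_congr rfl
    intro v _
    rw [Real.log_mul (Real.exp_pos _).ne' (hs v).ne', Real.log_exp]
    ring
  · apply Finset.sum_congr rfl
    intro t _
    push_cast
    ring

/-- the largest number of points in a ball -/
lemma max_ball (hne : Nonempty P.Ω) (A : Finset R) (hA : A.Nonempty) (r : P.Ω → ℝ)
    (hr : ∀ v, 0 < r v) (m : P.T → ℤ) :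
    ∃ k : ℕ, 1 ≤ k ∧ (∀ v z, P.cntV A v z (r v) ≤ k) ∧ (∀ t a, P.cntT A t a (m t) ≤ k) ∧
      ((∃ v z, P.cntV A v z (r v) = k) ∨ ∃ t a, P.cntT A t a (m t) = k) := by
  classical
  set S : Set ℕ := {k | (∃ v z, P.cntV A v z (r v) = k) ∨ ∃ t a, P.cntT A t a (m t) = k} with hS
  obtain ⟨v₀⟩ := hne
  obtain ⟨x₀, hx₀⟩ := hA
  have hbdd : BddAbove S := by
    refine ⟨A.card, ?_⟩
    rintro k (⟨v, z, rfl⟩ | ⟨t, a, rfl⟩)
    · exact Finset.card_le_card (Finset.filter_subset _ _)
    · exact Finset.card_le_card (Finset.filter_subset _ _)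
  have hmem : P.cntV A v₀ (P.em x₀ v₀) (r v₀) ∈ S := Or.inl ⟨v₀, _, rfl⟩
  refine ⟨sSup S, ?_, ?_, ?_, ?_⟩
  · refine le_trans ?_ (le_csSup hbdd hmem)
    rw [Nat.one_le_iff_ne_zero, ← Nat.pos_iff_ne_zero]
    unfold Data.cntV
    rw [Finset.card_pos]
    refine ⟨x₀, Finset.mem_filter.2 ⟨hx₀, ?_⟩⟩
    rw [sub_self, norm_zero]
    exact (hr v₀).le
  · intro v z
    exact le_csSup hbdd (Or.inl ⟨v, z, rfl⟩)
  · intro t a
    exact le_csSup hbdd (Or.inr ⟨t, a, rfl⟩)
  · exact Nat.sSup_mem ⟨_, hmem⟩ hbdd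

open scoped Classical in
lemma cntV_mono (A : Finset R) (v : P.Ω) (z : E (P.e v)) {r r' : ℝ} (h : r ≤ r') :
    P.cntV A v z r ≤ P.cntV A v z r' := by
  unfold Data.cntV
  apply Finset.card_le_card
  intro x hx
  rw [Finset.mem_filter] at hx ⊢
  exact ⟨hx.1, le_trans hx.2 h⟩

open scoped Classical in
lemma cntT_mono (A : Finset R) (t : P.T) (a : R) {l l' : ℤ} (h : l ≤ l') :
    P.cntT A t a l ≤ P.cntT A t a l' := by
  unfold Data.cntT
  apply Finset.card_le_card
  intro x hx
  rw [Finset.mem_filter] at hx ⊢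
  exact ⟨hx.1, hx.2.mono h⟩

/-- upper bound for the defects of the largest ball -/
lemma defect_le (h0 : Stmt_T0) (h1 : Stmt_T1) (h : P.Good C₁) :
    ∃ θ C : ℝ, 0 < θ ∧ θ ≤ 1 / 2 ∧ 0 ≤ C ∧ ∀ (A : Finset R) (L : AddSubgroup R),
      P.Opt C₁ A L → ∀ (ρ : P.Ω → ℝ) (m : P.T → ℤ), (∀ v, 0 < ρ v) → 0 ≤ P.deg ρ m →
      ∀ B ⊆ A, B.Nonempty → (∀ v z, P.cntV A v z (ρ v) ≤ B.card) →
      (∀ t a, P.cntT A t a (m t) ≤ B.card) → (B.card : ℝ) ≤ θ * A.card →
      ∑ v, P.DV ρ A B v + ∑ t, P.DT m A B t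
        ≤ C * (B.card : ℝ) ^ 2 * (Real.log (A.card / B.card) + 1) := by
  obtain ⟨C0, hC0, H0⟩ := h0 R P C₁ h
  obtain ⟨θ, CT, hθ, hθ', hCT, H1⟩ := h1 R P C₁ h
  refine ⟨θ, C0 + 1 + 2 * CT, hθ, hθ', by positivity, ?_⟩
  intro A L hopt ρ m hρ hdeg B hBA hBn hV hT hBθ
  have hg := h.toGeo
  set n : ℝ := (A.card : ℝ) with hn
  set k : ℝ := (B.card : ℝ) with hk
  have hk0 : 0 < k := by rw [hk]; exact_mod_cast Finset.card_pos.2 hBn
  have hkn : k ≤ n := by rw [hk, hn]; exact_mod_cast Finset.card_le_card hBA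
  have hn0 : 0 < n := by linarith
  have e0 := H0 A L hopt ρ m hρ B hBA hBn
  have e1 : 0 ≤ P.Gp ρ m B := hg.Gp_nonneg ρ m B
  have ht0 : max 0 (-(P.deg ρ m)) = 0 := max_eq_left (by linarith)
  rw [ht0, zero_mul, add_zero] at e0
  have e2 := H1 A L hopt ρ m (k / n) hρ (by positivity) (by rw [div_le_iff₀ hn0]; exact hBθ)
    (fun v z => by
      rw [← hn, div_mul_cancel₀ _ hn0.ne', hk]; exact_mod_cast hV v z)
    (fun t a => by
      rw [← hn, div_mul_cancel₀ _ hn0.ne', hk]; exact_mod_cast hT t a)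
  rw [ht0, zero_mul, add_zero, one_div_div] at e2
  have e3 := gap_sum_le hg ρ m hBA
  have hlog : 0 ≤ Real.log (n / k) := Real.log_nonneg (by rw [le_div_iff₀ hk0]; linarith)
  have e4 : 2 * (k / n) * ∑ x ∈ B, ∑ b ∈ A, P.gap ρ m (x - b)
      ≤ 2 * (k / n) * (CT * (n ^ 2 * (k / n * (Real.log (n / k) + 1)))) := by
    apply mul_le_mul_of_nonneg_left (le_trans e3 e2) (by positivity)
  have e5 : 2 * (k / n) * (CT * (n ^ 2 * (k / n * (Real.log (n / k) + 1))))
      = 2 * CT * (k ^ 2 * (Real.log (n / k) + 1)) := by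
    field_simp
  have e6 : (C0 + 1 + 2 * CT) * k ^ 2 * (Real.log (n / k) + 1)
      = k ^ 2 * (Real.log (n / k) + C0) + 2 * CT * (k ^ 2 * (Real.log (n / k) + 1))
        + (C0 * (k ^ 2 * Real.log (n / k)) + k ^ 2) := by ring
  have e7 : 0 ≤ C0 * (k ^ 2 * Real.log (n / k)) := by positivity
  have e8 : 0 ≤ k ^ 2 := by positivity
  linarith

open scoped Classical in
/-- lower bound, infinite places -/
lemma defect_ge_V (hG : Stmt_PDG) (hL : Stmt_PDL) (hT : Stmt_PDT) : ∃ c C : ℝ, 0 < c ∧ 0 ≤ C ∧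
    ∀ (R : Type) [CommRing R] (P : Data R) (C₁ : ℝ), P.Good C₁ →
      ∀ (A B : Finset R) (ρ : P.Ω → ℝ) (m : P.T → ℤ) (v : P.Ω) (z : E (P.e v)) (r₂ : ℝ),
      (∀ v, 0 < ρ v) → B ⊆ A → B.Nonempty → 0 < r₂ → (∀ b ∈ B, ‖P.em b v - z‖ ≤ ρ v) →
      (∀ z, (P.cntV A v z r₂ : ℝ) ≤ 1 / 2 * A.card) →
      c * (B.card : ℝ) ^ 2 * (Real.log (r₂ / ρ v) - C)
        ≤ ∑ v, P.DV ρ A B v + ∑ t, P.DT m A B t := by
  obtain ⟨c, C, hc, hC, H⟩ := hL (1 / 2) (by norm_num) le_rfl
  refine ⟨c / 2, C, by positivity, hC, ?_⟩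
  intro R _ P C₁ h A B ρ m v z r₂ hρ hBA hBn hr₂ hB hA
  have hg := h.toGeo
  have e2 := DV_le_sum hG hT h hρ m hBA hBn v
  have hAn : A.Nonempty := hBn.mono hBA
  have e3 := H (P.e v) (hg.e_eq v) R A B (fun x => P.em x v) z (ρ v) (ρ v) r₂ hBA hBn (hρ v) le_rfl
    hr₂ hB (fun z' => by
      have := hA z'
      unfold Data.cntV at this
      have e : (1 - 1 / 2 : ℝ) = 1 / 2 := by norm_num
      rw [e]
      convert this)
  have e4 : P.DV ρ A B v = ((P.e v : ℝ) / 2) * (-∑ i ∈ A, ∑ j ∈ A,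
      ((if i ∈ B then 1 else 0) - (B.card : ℝ) / A.card)
        * ((if j ∈ B then 1 else 0) - (B.card : ℝ) / A.card)
        * Real.log (‖P.em i v - P.em j v‖ ^ 2 + ρ v ^ 2)) := by
    rw [DV_eq]
    unfold fB
    congr!
  have f1 := hg.e_ge v
  have f2 := DV_nonneg hG hg hρ hBA hAn v
  rw [e4] at f2 e2
  set W : ℝ := (-∑ i ∈ A, ∑ j ∈ A,
      ((if i ∈ B then 1 else 0) - (B.card : ℝ) / A.card)
        * ((if j ∈ B then 1 else 0) - (B.card : ℝ) / A.card)
        * Real.log (‖P.em i v - P.em j v‖ ^ 2 + ρ v ^ 2)) with hW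
  have f4 : (0 : ℝ) < (P.e v : ℝ) / 2 := by linarith
  have f3 : 0 ≤ W := nonneg_of_mul_nonneg_right f2 f4
  have f5 : c * (B.card : ℝ) ^ 2 * (Real.log (r₂ / ρ v) - C) ≤ W := by
    rw [hW]
    convert e3
  have f6 : 1 / 2 * W ≤ (P.e v : ℝ) / 2 * W := mul_le_mul_of_nonneg_right (by linarith) f3
  have f7 : c / 2 * (B.card : ℝ) ^ 2 * (Real.log (r₂ / ρ v) - C)
      = 1 / 2 * (c * (B.card : ℝ) ^ 2 * (Real.log (r₂ / ρ v) - C)) := by ring
  rw [f7]
  linarith

end T3_

open Data T3_ in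
theorem stmt_T3 (h0 : Stmt_T0) (h1 : Stmt_T1) (h2 : Stmt_T2) (hG : Stmt_PDG) (hL : Stmt_PDL)
    (hT : Stmt_PDT) : Stmt_T3 := by
  classical
  intro R _ P C₁ hgood
  have hg := hgood.toGeo
  obtain ⟨θ, CD, hθ, hθ', hCD, HD⟩ := defect_le h0 h1 hgood
  obtain ⟨K, n₀, H2⟩ := h2 R P C₁ hgood θ hθ hθ'
  obtain ⟨cV, CV, hcV, hCV, HV⟩ := defect_ge_V hG hL hT
  have hNt := hg.Nt_pos
  -- the sum of the degrees of the infinite places
  set D : ℝ := ∑ v, (P.e v : ℝ) with hD
  have hD1 : 1 ≤ D := by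
    obtain ⟨v⟩ := hg.ne
    exact le_trans (hg.e_ge v) (Finset.single_le_sum (f := fun v => (P.e v : ℝ))
      (fun _ _ => Nat.cast_nonneg _) (Finset.mem_univ v))
  -- a positive lower bound for all `lq t / 4`
  obtain ⟨q, hq, hqt⟩ : ∃ q : ℝ, 0 < q ∧ ∀ t, q ≤ P.lq t / 4 := by
    by_cases hTne : Nonempty P.T
    · obtain ⟨t₀, ht₀⟩ := Finite.exists_min (fun t => P.lq t / 4)
      exact ⟨P.lq t₀ / 4, by have := hg.lq_pos t₀; positivity, ht₀⟩
    · exact ⟨1, one_pos, fun t => absurd ⟨t⟩ hTne⟩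
  set c1 : ℝ := min cV q with hc1
  have hc1' : 0 < c1 := lt_min hcV hq
  -- main constants
  set c : ℝ := c1 / (CD + 1) with hc
  have hc0 : 0 < c := by positivity
  set C' : ℝ := c * (K + CV + 1) + 1 with hC'
  have hC'0 : 0 < C' := by positivity
  refine ⟨Real.exp C', c, 2 * K, n₀, Real.exp_pos _, hc0, ?_⟩
  intro A L hopt hcard
  obtain ⟨ρ, m, hρ, hVs, hTs, hdeg, a₀, ha₀, A₀, hA₀, hA₀c, hbox⟩ := H2 A L hopt hcard
  set n : ℝ := (A.card : ℝ) with hn
  have hn1 : 1 ≤ A.card := Finset.card_pos.2 hopt.ne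
  have hn1' : (1 : ℝ) ≤ n := by rw [hn]; exact_mod_cast hn1
  have hn0 : 0 < n := by linarith
  -- the scales
  set τ : ℝ := (Real.log n - P.deg ρ m) / D with hτ
  have hτK : |τ| ≤ K := by
    rw [hτ, abs_div, abs_of_pos (by linarith : (0 : ℝ) < D), abs_sub_comm]
    exact le_trans (div_le_self (abs_nonneg _) hD1) hdeg
  obtain ⟨hτ1, hτ2⟩ := abs_le.1 hτK
  set s : P.Ω → ℝ := fun v => Real.exp τ * ρ v with hs
  have hs0 : ∀ v, 0 < s v := fun v => mul_pos (Real.exp_pos _) (hρ v)
  have hdegs : P.deg s m = Real.log n := by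
    have e1 : P.deg s m = P.deg ρ m + τ * D := by
      unfold Data.deg
      rw [hD, Finset.mul_sum, add_right_comm, ← Finset.sum_add_distrib]
      congr 1
      apply Finset.sum_congr rfl
      intro v _
      rw [hs, Real.log_mul (Real.exp_pos _).ne' (hρ v).ne', Real.log_exp]
      ring
    rw [e1, hτ, div_mul_cancel₀ _ (by linarith)]
    ring
  -- the main estimate
  have key : ∀ M : ℕ, M ≤ P.Mx A.card →
      (∀ v z, (P.cntV A v z (Real.exp (-(M : ℝ)) * s v) : ℝ)
        ≤ Real.exp C' * Real.exp (-(c * M)) * n) ∧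
      (∀ t a, (P.cntT A t a (m t - M) : ℝ) ≤ Real.exp C' * Real.exp (-(c * M)) * n) := by
    intro M hM
    by_cases hMK : (M : ℝ) ≤ K + CV
    · have e1 : 1 ≤ Real.exp C' * Real.exp (-(c * M)) := by
        rw [← Real.exp_add]
        apply Real.one_le_exp
        rw [hC']
        have h3 : c * M ≤ c * (K + CV) := mul_le_mul_of_nonneg_left hMK hc0.le
        have h4 : c * (K + CV + 1) = c * (K + CV) + c := by ring
        linarith
      have e2 : n ≤ Real.exp C' * Real.exp (-(c * M)) * n := le_mul_of_one_le_left hn0.le e1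
      constructor
      · intro v z
        refine le_trans ?_ e2
        rw [hn]
        exact_mod_cast Finset.card_le_card (Finset.filter_subset _ _)
      · intro t a
        refine le_trans ?_ e2
        rw [hn]
        exact_mod_cast Finset.card_le_card (Finset.filter_subset _ _)
    · push Not at hMK
      set r : P.Ω → ℝ := fun v => Real.exp (-(M : ℝ)) * s v with hr
      set w : P.T → ℤ := fun t => m t - M with hw
      have hr0 : ∀ v, 0 < r v := fun v => mul_pos (Real.exp_pos _) (hs0 v)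
      obtain ⟨k, hk1, hkV, hkT, hkm⟩ := max_ball hg.ne A hopt.ne r hr0 w
      have hk0 : (0 : ℝ) < k := by exact_mod_cast hk1
      -- it suffices to bound `k`
      suffices hkb : (k : ℝ) ≤ Real.exp C' * Real.exp (-(c * M)) * n by
        constructor
        · intro v z
          refine le_trans ?_ hkb
          have := hkV v z
          exact Nat.cast_le.2 this
        · intro t a
          refine le_trans ?_ hkb
          have := hkT t a
          exact Nat.cast_le.2 this
      have hdegr : 0 ≤ P.deg r w := by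
        rw [hr, hw, deg_scale hs0, hdegs]
        have e1 := hg.Mx_mul_le hn1
        have e2 : (M : ℝ) ≤ P.Mx A.card := by exact_mod_cast hM
        have e3 : (M : ℝ) * P.Nt ≤ P.Mx A.card * P.Nt := mul_le_mul_of_nonneg_right e2 hNt.le
        rw [← hn] at e1
        linarith
      have hrρ : ∀ v, r v ≤ ρ v := by
        intro v
        rw [hr, hs]
        simp only
        rw [← mul_assoc, ← Real.exp_add]
        apply mul_le_of_le_one_left (hρ v).le
        rw [Real.exp_le_one_iff]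
        linarith
      have hwm : ∀ t, w t ≤ m t := by
        intro t
        rw [hw]
        simp
      have hkθ : (k : ℝ) ≤ θ * n := by
        rcases hkm with ⟨v, z, hvz⟩ | ⟨t, a, hta⟩
        · rw [← hvz]
          refine le_trans ?_ (hVs v z)
          exact_mod_cast cntV_mono A v z (hrρ v)
        · rw [← hta]
          refine le_trans ?_ (hTs t a)
          exact_mod_cast cntT_mono A t a (hwm t)
      have hlog : 0 ≤ Real.log (n / k) := Real.log_nonneg (by
        rw [le_div_iff₀ hk0, one_mul]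
        have : θ * n ≤ 1 * n := mul_le_mul_of_nonneg_right (by linarith) hn0.le
        linarith)
      have hMpos : 0 < (M : ℝ) - K - CV := by linarith
      -- the lower bound for the defect
      have hmain : c1 * (k : ℝ) ^ 2 * (M - K - CV) ≤ CD * (k : ℝ) ^ 2 * (Real.log (n / k) + 1) := by
        rcases hkm with ⟨v, z, hvz⟩ | ⟨t, a, hta⟩
        · set B : Finset R := A.filter fun x => ‖P.em x v - z‖ ≤ r v with hB
          have hBA : B ⊆ A := Finset.filter_subset _ _
          have hBk : B.card = k := by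
            rw [← hvz, hB]
            unfold Data.cntV
            congr!
          have hBn : B.Nonempty := by rw [← Finset.card_pos, hBk]; exact hk1
          have e1 := HD A L hopt r w hr0 hdegr B hBA hBn (by rw [hBk]; exact hkV)
            (by rw [hBk]; exact hkT) (by rw [hBk]; exact hkθ)
          have e2 := HV R P C₁ hgood A B r w v z (ρ v) hr0 hBA hBn (hρ v)
            (fun b hb => by
              rw [hB, Finset.mem_filter] at hb
              exact hb.2)
            (fun z' => le_trans (hVs v z') (mul_le_mul_of_nonneg_right hθ' hn0.le))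
          rw [hBk] at e1 e2
          have e3 : Real.log (ρ v / r v) = M - τ := by
            rw [hr, hs]
            simp only
            rw [← mul_assoc, ← Real.exp_add, div_mul_cancel_right₀ (hρ v).ne', ← Real.exp_neg,
              Real.log_exp]
            ring
          rw [e3] at e2
          refine le_trans ?_ (le_trans e2 e1)
          have e5 : c1 ≤ cV := min_le_left _ _
          have e6 : (M : ℝ) - K - CV ≤ M - τ - CV := by linarith
          apply mul_le_mul (mul_le_mul_of_nonneg_right e5 (by positivity)) e6 hMpos.le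
            (by positivity)
        · set B : Finset R := A.filter fun x => P.NearT t (w t) x a with hB
          have hBA : B ⊆ A := Finset.filter_subset _ _
          have hBk : B.card = k := by
            rw [← hta, hB]
            unfold Data.cntT
            congr!
          have hBn : B.Nonempty := by rw [← Finset.card_pos, hBk]; exact hk1
          have e1 := HD A L hopt r w hr0 hdegr B hBA hBn (by rw [hBk]; exact hkV)
            (by rw [hBk]; exact hkT) (by rw [hBk]; exact hkθ)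
          have e2 := (hT R P C₁ hgood A B w t hBA hBn).2 (1 / 2) (w t) (m t) a (by norm_num) le_rfl
            (hwm t) (fun b hb => by
              rw [hB, Finset.mem_filter] at hb
              exact hb.2)
            (fun a' => by
              have e := hTs t a'
              have e' : θ * n ≤ (1 - 1 / 2) * n := mul_le_mul_of_nonneg_right (by linarith) hn0.le
              exact le_trans e e')
          have e3 := DT_le_sum hG hT hgood hr0 w hBA hBn t
          rw [hBk] at e1 e2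
          have e4 : ((m t - w t : ℤ) : ℝ) = M := by rw [hw]; push_cast; ring
          rw [e4] at e2
          refine le_trans ?_ (le_trans e2 (le_trans e3 e1))
          have e5 : c1 ≤ P.lq t / 4 := le_trans (min_le_right _ _) (hqt t)
          have e6 : (M : ℝ) - K - CV ≤ M := by
            have : (0 : ℝ) ≤ K := Nat.cast_nonneg _
            linarith
          have e7 : P.lq t * (M : ℝ) * (1 / 2 * k) ^ 2 = P.lq t / 4 * (k : ℝ) ^ 2 * M := by ring
          rw [e7]
          have hlq := hg.lq_pos t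
          apply mul_le_mul (mul_le_mul_of_nonneg_right e5 (by positivity)) e6 hMpos.le
            (by positivity)
      have e1 : c1 * (M - K - CV) ≤ CD * (Real.log (n / k) + 1) := by
        have f1 : (k : ℝ) ^ 2 * (c1 * (M - K - CV)) ≤ (k : ℝ) ^ 2 * (CD * (Real.log (n / k) + 1)) := by
          linarith
        exact le_of_mul_le_mul_left f1 (by positivity)
      have e2 : c * (M - K - CV) ≤ Real.log (n / k) + 1 := by
        rw [hc, div_mul_eq_mul_div, div_le_iff₀ (by positivity)]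
        linarith
      have e3 : Real.log (k / n) ≤ C' - c * M := by
        rw [← inv_div, Real.log_inv, hC']
        have f1 : c * (M - K - CV) = c * M - c * (K + CV) := by ring
        have f2 : c * (K + CV + 1) = c * (K + CV) + c := by ring
        linarith
      rw [Real.log_le_iff_le_exp (by positivity), div_le_iff₀ hn0] at e3
      rw [← Real.exp_add]
      exact e3
  refine ⟨s, m, hs0, hdegs, fun M hM => (key M hM).1, fun M hM => (key M hM).2, a₀, ha₀, A₀, hA₀,
    hA₀c, ?_⟩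
  intro x hx
  obtain ⟨hx1, hx2⟩ := hbox x hx
  constructor
  · intro v
    refine le_trans (hx1 v) ?_
    rw [hs]
    simp only
    rw [← mul_assoc, ← Real.exp_add]
    apply mul_le_mul_of_nonneg_right _ (hρ v).le
    rw [Real.exp_le_exp]
    push_cast
    linarith
  · intro t
    apply Data.NearT.mono _ (hx2 t)
    push_cast
    have : (0 : ℤ) ≤ K := Int.natCast_nonneg _
    linarith

end Pool.NS
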